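import Pool.Agent.Helper66.MD.Main

/-!
# MP_088bf7_nt: prime divisors 2kn+1 of 2^n - 1 with n almost prime, for every odd k
-/

set_option autoImplicit false

namespace Pool.Agent.Results.MP_088bf7_nt.AlmostPrimeExponents

/-- There is an absolute constant `C0` such that for every odd `k` the integers `n` for which
`2kn+1` is a prime divisor of `2^n - 1` and all of whose prime factors exceed `N^(1/(C0 k^2))` have
at least the order of density which is expected for primes. -/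
theorem result : ∃ C0 : ℕ, 0 < C0 ∧ ∀ k : ℕ, Odd k → ∃ c : ℝ, 0 < c ∧ ∃ N0 : ℕ, ∀ N : ℕ, N0 ≤ N →
    ∃ S : Finset ℕ, (∀ n ∈ S, n ≤ N ∧ N < n ^ 3 ∧ (2 * k * n + 1).Prime ∧
      2 * k * n + 1 ∣ 2 ^ n - 1 ∧ ∀ p : ℕ, p.Prime → p ∣ n → N < p ^ (C0 * k ^ 2)) ∧
      c / Real.log N ≤ ∑ n ∈ S, (1 : ℝ) / n := by
  classical
  obtain ⟨C0, hC0, h⟩ := Pool.Agent.Helper66.MD.main
  refine ⟨C0, hC0, fun k hk => ?_⟩
  obtain ⟨c, hc, N0, h⟩ := h k hk
  refine ⟨c, hc, N0, fun N hN => ⟨_, ?_, h N hN⟩⟩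
  intro n hn
  rw [Finset.mem_filter, Finset.mem_Icc] at hn
  exact ⟨hn.1.2, hn.2⟩

end Pool.Agent.Results.MP_088bf7_nt.AlmostPrimeExponents
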